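import Mathlib

set_option autoImplicit false

namespace Pool.Agent.Results.MP_abda90_al.Torus

open Matrix MonoidAlgebra

/-- The group `ℤ²`, written multiplicatively. -/
abbrev G := Multiplicative (ℤ × ℤ)

/-- The real group algebra of `ℤ²`. -/
abbrev R := MonoidAlgebra ℝ G

/-- The involution induced by inversion. -/
noncomputable def inv : R → R := mapDomain fun g => g⁻¹

/-- The adjoint of a matrix: transpose with the involution applied entrywise. -/
noncomputable def adj {m n : Type} (a : Matrix m n R) : Matrix n m R := aᵀ.map inv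

/-- The generator `s`. -/
def s : G := Multiplicative.ofAdd (1, 0)

/-- The generator `t`. -/
def t : G := Multiplicative.ofAdd (0, 1)

/-- The column with entries `1 - s` and `1 - t`. -/
noncomputable def d0 : Matrix (Fin 2) (Fin 1) R := !![1 - single s 1; 1 - single t 1]

/-- The Fox derivatives of the relator `s t s⁻¹ t⁻¹`. -/
noncomputable def d1 : Matrix (Fin 1) (Fin 2) R := !![1 - single t 1, single s 1 - 1]

/-- The involution as an algebra map. -/
noncomputable def invA : R →ₐ[ℝ] R := mapDomainAlgHom ℝ ℝ invMonoidHom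

theorem inv_eq (x : R) : inv x = invA x := rfl

/-- First-order expansion along an additive character. -/
noncomputable def jet (φ : ℤ × ℤ →+ ℤ) : R →ₐ[ℝ] DualNumber ℝ :=
  lift ℝ _ G
    { toFun := fun g => TrivSqZeroExt.inl 1 + TrivSqZeroExt.inr (φ g.toAdd : ℝ)
      map_one' := by simp
      map_mul' := fun a b => by ext <;> simp [add_comm] }

/-- The augmentation. -/
noncomputable def aug : R →ₐ[ℝ] ℝ := lift ℝ _ G 1

theorem jet_fst (φ : ℤ × ℤ →+ ℤ) (x : R) : (jet φ x).fst = aug x := by
  have : (TrivSqZeroExt.fstHom ℝ ℝ ℝ).comp (jet φ) = aug := by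
    ext g; simp [jet, aug]
  exact DFunLike.congr_fun this x

theorem aug_inv (x : R) : aug (inv x) = aug x := by
  have : aug.comp invA = aug := by
    ext g; simp [invA, aug]
  exact DFunLike.congr_fun this x

theorem result : d1 * d0 = 0 ∧ ∃ a : Matrix (Fin 2) (Fin 2) R, adj d0 * a * d0 = 0 ∧
    ∀ (k : ℕ) (d : Matrix (Fin k) (Fin 2) R), d * d0 = 0 →
      ¬ ∃ (x : Matrix (Fin k) (Fin 2) R) (y : Matrix (Fin 2) (Fin k) R), a = adj d * x + y * d := by
  refine ⟨?_, !![0, single s 1; -single t 1, 0], ?_, fun k d hd ⟨x, y, h⟩ => ?_⟩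
  · ext1 i j
    fin_cases i; fin_cases j
    simp [d0, d1, Matrix.mul_apply, Fin.sum_univ_two]
    ring
  · have h1 : ∀ g : G, inv (1 - single g 1) * single g 1 = single g 1 - 1 := fun g => by
      rw [inv_eq, map_sub, map_one, sub_mul, one_mul]
      simp [invA, single_mul_single, one_def]
    ext1 i j
    fin_cases i; fin_cases j
    simp [d0, adj, Matrix.mul_apply, Fin.sum_univ_two, h1]
    ring
  · have key : ∀ i j, aug (d i j) = 0 := fun i j => by
      have h0 : d i 0 * (1 - single s 1) + d i 1 * (1 - single t 1) = 0 := by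
        simpa [Matrix.mul_apply, Fin.sum_univ_two, d0] using congrFun (congrFun hd i) 0
      fin_cases j
      · rw [← jet_fst (AddMonoidHom.fst ℤ ℤ)]
        have := congrArg (fun z => (jet (AddMonoidHom.fst ℤ ℤ) z).snd) h0
        simpa [jet, s, t] using this
      · rw [← jet_fst (AddMonoidHom.snd ℤ ℤ)]
        have := congrArg (fun z => (jet (AddMonoidHom.snd ℤ ℤ) z).snd) h0
        simpa [jet, s, t] using this
    have := congrArg aug (congrFun (congrFun h 0) 1)
    simp [Matrix.mul_apply, adj, aug_inv, key] at this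
    simp [aug] at this

end Pool.Agent.Results.MP_abda90_al.Torus
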